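import Mathlib

/-!
# 2-torsion in the class group of an extension of odd degree
-/

set_option autoImplicit false

open IsDedekindDomain NumberField nonZeroDivisors

namespace Pool.Agent.H307.CG

/-- **S_CLG** (2-torsion in the class group of an extension `L / F` of odd degree). `V` is the group of the elements
of square norm whose valuations are all even. -/
def S_CLG : Prop := ∀ (F L : Type) [Field F] [NumberField F] [Field L] [NumberField L] [Algebra F L],
  Odd (Module.finrank F L) → ∀ V : Subgroup Lˣ,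
  (∀ x : Lˣ, x ∈ V ↔ IsSquare (Algebra.norm F (x : L)) ∧
    ∀ 𝔓 : HeightOneSpectrum (𝓞 L), ∃ y : L, 𝔓.valuation L (x : L) = 𝔓.valuation L y ^ 2) →
  ((powMonoidHom 2 : Lˣ →* Lˣ).range).relIndex V ≠ 0 →
  Nat.card {c : ClassGroup (𝓞 L) // c ^ 2 = 1} ≤
    Nat.card (ClassGroup (𝓞 F)) * ((powMonoidHom 2 : Lˣ →* Lˣ).range).relIndex V

theorem sq_inj {S : Type} [CommRing S] [IsDedekindDomain S] {I J : Ideal S} (h : I ^ 2 = J ^ 2) : I = J := by
  have h1 : I ∣ J := (UniqueFactorizationMonoid.pow_dvd_pow_iff_dvd two_ne_zero).1 (dvd_of_eq h)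
  have h2 : J ∣ I := (UniqueFactorizationMonoid.pow_dvd_pow_iff_dvd two_ne_zero).1 (dvd_of_eq h.symm)
  exact dvd_antisymm h1 h2

/-- the valuations of a generator of the square of an ideal are even -/
theorem val_sq {S K : Type} [CommRing S] [IsDedekindDomain S] [Field K] [Algebra S K] [IsFractionRing S K]
    (v : HeightOneSpectrum S) (β : S) (hβ : β ≠ 0) (J : Ideal S) (h : Ideal.span {β} = J ^ 2) :
    ∃ y : K, v.valuation K (algebraMap S K β) = v.valuation K y ^ 2 := by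
  classical
  obtain ⟨π, hπ⟩ := v.valuation_exists_uniformizer K
  have hJ : J ≠ 0 := by
    rintro rfl
    rw [zero_pow two_ne_zero] at h
    exact hβ (Ideal.span_singleton_eq_bot.1 h)
  refine ⟨π ^ ((Associates.mk v.asIdeal).count (Associates.mk J).factors), ?_⟩
  rw [v.valuation_of_algebraMap, v.intValuation_if_neg hβ, h, map_pow, hπ, Associates.mk_pow,
    Associates.count_pow (Associates.mk_ne_zero.2 hJ) v.associates_irreducible, ← WithZero.exp_nsmul,
    ← WithZero.exp_nsmul]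
  congr 1
  simp

theorem exists_rep {S : Type} [CommRing S] [IsDedekindDomain S] (c : ClassGroup S) (hc : c ^ 2 = 1) :
    ∃ (I : (Ideal S)⁰) (α : S), α ≠ 0 ∧ ClassGroup.mk0 I = c ∧ Ideal.span {α} = (I : Ideal S) ^ 2 := by
  obtain ⟨I, rfl⟩ := ClassGroup.mk0_surjective c
  rw [← map_pow] at hc
  have h1 : ((I ^ 2 : (Ideal S)⁰) : Ideal S).IsPrincipal := (ClassGroup.mk0_eq_one_iff (I ^ 2).2).1 hc
  obtain ⟨α, hα⟩ := h1
  have hα' : Ideal.span {α} = (I : Ideal S) ^ 2 := by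
    rw [← SubmonoidClass.coe_pow, hα]
  refine ⟨I, α, ?_, rfl, hα'⟩
  rintro rfl
  rw [Ideal.span_singleton_zero] at hα'
  exact pow_ne_zero 2 (nonZeroDivisors.coe_ne_zero I) hα'.symm

section

variable (F L : Type) [Field F] [NumberField F] [Field L] [NumberField L] [Algebra F L]

/-- the norm as an element of the larger ring -/
noncomputable def nu (α : 𝓞 L) : 𝓞 L := algebraMap (𝓞 F) (𝓞 L) (Algebra.intNorm (𝓞 F) (𝓞 L) α)

theorem nu_eq (α : 𝓞 L) : algebraMap (𝓞 L) L (nu F L α) = algebraMap F L (Algebra.norm F (algebraMap (𝓞 L) L α)) := by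
  rw [nu, ← Algebra.algebraMap_intNorm (A := 𝓞 F) (K := F) (L := L) (B := 𝓞 L) α, ← IsScalarTower.algebraMap_apply,
    ← IsScalarTower.algebraMap_apply]

theorem nu_ne {α : 𝓞 L} (h : α ≠ 0) : nu F L α ≠ 0 := by
  intro h0
  have h1 := nu_eq F L α
  rw [h0, map_zero] at h1
  have h2 := (map_eq_zero (algebraMap F L)).1 h1.symm
  rw [Algebra.norm_eq_zero_iff] at h2
  exact h ((map_eq_zero_iff _ (IsFractionRing.injective (𝓞 L) L)).1 h2)

/-- the extension of the relative norm -/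
noncomputable def en (I : Ideal (𝓞 L)) : Ideal (𝓞 L) := (Ideal.relNorm (𝓞 F) I).map (algebraMap (𝓞 F) (𝓞 L))

theorem nu_span {α : 𝓞 L} {I : Ideal (𝓞 L)} (h : Ideal.span {α} = I ^ 2) : Ideal.span {nu F L α} = en F L I ^ 2 := by
  have h1 := congrArg (Ideal.relNorm (𝓞 F)) h
  rw [Ideal.relNorm_singleton, map_pow] at h1
  have h2 := congrArg (Ideal.map (algebraMap (𝓞 F) (𝓞 L))) h1
  rw [Ideal.map_span, Set.image_singleton, Ideal.map_pow] at h2
  exact h2

end

theorem clg : S_CLG := by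
  classical
  intro F L _ _ _ _ _ hodd V hV hrel
  have inj : Function.Injective (algebraMap (𝓞 L) L) := IsFractionRing.injective (𝓞 L) L
  -- representatives
  have hrep : ∀ c : {c : ClassGroup (𝓞 L) // c ^ 2 = 1}, ∃ (I : (Ideal (𝓞 L))⁰) (α : 𝓞 L), α ≠ 0 ∧
      ClassGroup.mk0 I = c.1 ∧ Ideal.span {α} = (I : Ideal (𝓞 L)) ^ 2 := fun c => exists_rep c.1 c.2
  choose I α hα hI hIα using hrep
  have hne : ∀ c, algebraMap (𝓞 L) L (nu F L (α c) * α c) ≠ 0 := fun c =>
    (map_ne_zero_iff _ inj).2 (mul_ne_zero (nu_ne F L (hα c)) (hα c))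
  obtain ⟨Φ, hΦ⟩ : ∃ Φ : {c : ClassGroup (𝓞 L) // c ^ 2 = 1} → Lˣ, ∀ c,
      (Φ c : L) = algebraMap (𝓞 L) L (nu F L (α c) * α c) := ⟨fun c => Units.mk0 _ (hne c), fun c => rfl⟩
  have hmem : ∀ c, Φ c ∈ V := by
    intro c
    rw [hV]
    refine ⟨?_, fun v => ?_⟩
    · obtain ⟨k, hk⟩ := hodd
      refine ⟨Algebra.norm F (algebraMap (𝓞 L) L (α c)) ^ (k + 1), ?_⟩
      rw [hΦ, map_mul, map_mul, nu_eq, Algebra.norm_algebraMap, hk]
      ring
    · obtain ⟨y, hy⟩ := val_sq (K := L) v (α c) (hα c) _ (hIα c)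
      obtain ⟨y', hy'⟩ := val_sq (K := L) v (nu F L (α c)) (nu_ne F L (hα c)) _ (nu_span F L (hIα c))
      refine ⟨y' * y, ?_⟩
      rw [hΦ, map_mul, map_mul, map_mul, hy, hy', mul_pow]
  -- fibres
  have hfib : ∀ c c', (Φ c)⁻¹ * Φ c' ∈ (powMonoidHom 2 : Lˣ →* Lˣ).range →
      ∃ t : ClassGroup (𝓞 F), c.1 * ClassGroup.extendedHom (𝓞 F) (𝓞 L) t = c'.1 := by
    rintro c c' ⟨γ, hγ⟩
    obtain ⟨g, h, hh, hgh⟩ := IsFractionRing.div_surjective (A := 𝓞 L) (γ : L)
    have hh0 : h ≠ 0 := nonZeroDivisors.ne_zero hh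
    have hhL : algebraMap (𝓞 L) L h ≠ 0 := (map_ne_zero_iff _ inj).2 hh0
    have hg0 : g ≠ 0 := by
      rintro rfl
      rw [map_zero, zero_div] at hgh
      exact γ.ne_zero hgh.symm
    have h1 : (Φ c' : L) = Φ c * (γ : L) ^ 2 := by
      have h2 : Φ c' = Φ c * γ ^ 2 := by
        have h3 : γ ^ 2 = (Φ c)⁻¹ * Φ c' := hγ
        rw [h3, mul_inv_cancel_left]
      rw [h2]
      simp
    rw [hΦ, hΦ, ← hgh] at h1
    have h2 : nu F L (α c') * α c' * h ^ 2 = nu F L (α c) * α c * g ^ 2 := by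
      apply inj
      rw [map_mul, h1]
      simp only [map_mul, map_pow]
      field_simp
    have h3 : α c * α c' * (nu F L (α c') * h) ^ 2 = nu F L (α c) * nu F L (α c') * (α c * g) ^ 2 := by
      linear_combination (α c * nu F L (α c')) * h2
    have h4 : Ideal.span {nu F L (α c') * h} * ((I c : Ideal (𝓞 L)) * I c') =
        Ideal.span {α c * g} * (en F L (I c) * en F L (I c')) := by
      apply sq_inj
      rw [mul_pow, mul_pow, mul_pow, mul_pow, ← hIα, ← hIα, ← nu_span F L (hIα c), ← nu_span F L (hIα c'),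
        Ideal.span_singleton_pow, Ideal.span_singleton_pow, Ideal.span_singleton_mul_span_singleton,
        Ideal.span_singleton_mul_span_singleton, Ideal.span_singleton_mul_span_singleton,
        Ideal.span_singleton_mul_span_singleton]
      congr 1
      rw [Set.singleton_eq_singleton_iff]
      linear_combination h3
    have ha : ∀ c, Ideal.relNorm (𝓞 F) (I c : Ideal (𝓞 L)) ∈ (Ideal (𝓞 F))⁰ := by
      intro c
      rw [mem_nonZeroDivisors_iff_ne_zero]
      intro h0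
      exact nonZeroDivisors.coe_ne_zero (I c) (Ideal.relNorm_eq_bot_iff.1 h0)
    refine ⟨ClassGroup.mk0 (⟨_, ha c⟩ * ⟨_, ha c'⟩), ?_⟩
    have h5 : ClassGroup.mk0 (I c * I c') =
        ClassGroup.extendedHom (𝓞 F) (𝓞 L) (ClassGroup.mk0 (⟨_, ha c⟩ * ⟨_, ha c'⟩)) := by
      rw [ClassGroup.extendedHom_mk0, ClassGroup.mk0_eq_mk0_iff]
      refine ⟨nu F L (α c') * h, α c * g, mul_ne_zero (nu_ne F L (hα c')) hh0, mul_ne_zero (hα c) hg0, ?_⟩
      show Ideal.span {nu F L (α c') * h} * ((I c : Ideal (𝓞 L)) * I c') =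
        Ideal.span {α c * g} * Ideal.map (algebraMap (𝓞 F) (𝓞 L))
          (Ideal.relNorm (𝓞 F) (I c : Ideal (𝓞 L)) * Ideal.relNorm (𝓞 F) (I c' : Ideal (𝓞 L)))
      rw [Ideal.map_mul]
      exact h4
    rw [← h5, map_mul, hI, hI, ← mul_assoc, ← sq, c.2, one_mul]
  -- counting
  have hcard : ((powMonoidHom 2 : Lˣ →* Lˣ).range).relIndex V =
      Nat.card (V ⧸ ((powMonoidHom 2 : Lˣ →* Lˣ).range).subgroupOf V) := rfl
  rw [hcard] at hrel ⊢
  have : Finite (V ⧸ ((powMonoidHom 2 : Lˣ →* Lˣ).range).subgroupOf V) := Nat.finite_of_card_ne_zero hrel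
  have := Fintype.ofFinite (V ⧸ ((powMonoidHom 2 : Lˣ →* Lˣ).range).subgroupOf V)
  have : Finite {c : ClassGroup (𝓞 L) // c ^ 2 = 1} := inferInstance
  have := Fintype.ofFinite {c : ClassGroup (𝓞 L) // c ^ 2 = 1}
  rw [Nat.card_eq_fintype_card, Nat.card_eq_fintype_card, Nat.card_eq_fintype_card, ← Finset.card_univ,
    ← Finset.card_univ (α := V ⧸ ((powMonoidHom 2 : Lˣ →* Lˣ).range).subgroupOf V)]
  refine Finset.card_le_mul_card_image_of_maps_to
    (f := fun c => (QuotientGroup.mk (⟨Φ c, hmem c⟩ : V) : V ⧸ ((powMonoidHom 2 : Lˣ →* Lˣ).range).subgroupOf V))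
    (fun _ _ => Finset.mem_univ _) _ fun q _ => ?_
  rcases Finset.eq_empty_or_nonempty (Finset.univ.filter fun c => (QuotientGroup.mk (⟨Φ c, hmem c⟩ : V) :
      V ⧸ ((powMonoidHom 2 : Lˣ →* Lˣ).range).subgroupOf V) = q) with h | ⟨c, hc⟩
  · rw [h]; simp
  · rw [Finset.mem_filter] at hc
    have hsub : (Finset.univ.filter fun c => (QuotientGroup.mk (⟨Φ c, hmem c⟩ : V) :
        V ⧸ ((powMonoidHom 2 : Lˣ →* Lˣ).range).subgroupOf V) = q).image Subtype.val ⊆
        (Finset.univ : Finset (ClassGroup (𝓞 F))).image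
          (fun t => c.1 * ClassGroup.extendedHom (𝓞 F) (𝓞 L) t) := by
      intro x hx
      obtain ⟨c', hc', rfl⟩ := Finset.mem_image.1 hx
      rw [Finset.mem_filter] at hc'
      have h1 := hc.2.trans hc'.2.symm
      rw [QuotientGroup.eq] at h1
      obtain ⟨t, ht⟩ := hfib c c' h1
      exact Finset.mem_image.2 ⟨t, Finset.mem_univ _, ht⟩
    rw [← Finset.card_image_of_injective _ Subtype.val_injective]
    exact (Finset.card_le_card hsub).trans (Finset.card_image_le.trans (by rw [Finset.card_univ]))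

end Pool.Agent.H307.CG
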